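import Pool.Agent.H31.VdC

set_option autoImplicit false

open Pool.Agent.H31

theorem Pool.Agent.Results.MP_999952_gt.Q1.result :
    ∃ (X : Type) (_ : TopologicalSpace X), TopologicalSpace.MetrizableSpace X ∧
      TopologicalSpace.SeparableSpace X ∧ Nonempty X ∧
      TopologicalSpace.IsTopologicalBasis {s : Set X | IsClopen s} ∧
      (∀ x y : X, ∃ h : X ≃ₜ X, h x = y) ∧
      ¬ ∃ Y : ℕ → Set X, ⋃ n, Y n = Set.univ ∧
        ∀ n, ∀ U : Set (Y n), IsClopen U → U.Nonempty → Nonempty (U ≃ₜ Y n) :=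
  ⟨VdC.H, inferInstance, inferInstance, inferInstance, inferInstance, VdC.basisH, VdC.homog,
    fun ⟨Y, h1, h2⟩ => VdC.not_sigma_strong Y h1 h2⟩
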